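import Pool.Agent.Helper12.SG.GoalsE

/-!
# Project SG (MP_a41896_nt), module B: packet PINT
-/

set_option autoImplicit false

namespace Pool.Agent.Helper83.SGB

open Height Height.AdmissibleAbsValues NumberField IsDedekindDomain
open Pool.Agent.Helper12.SG

theorem pint : PINT := by
  intro K _ _ x hx
  have h1 : ∀ v : HeightOneSpectrum (𝓞 K), v.valuation K x ≤ 1 := by
    intro v
    have h2 : (FinitePlace.mk v).val x ≤ 1 := hx _ (FinitePlace.isFinitePlace (FinitePlace.mk v))
    have h3 : (FinitePlace.mk v).val x = HeightOneSpectrum.adicAbv K v x := by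
      rw [← FinitePlace.coe_apply, FinitePlace.mk_apply]
      exact FinitePlace.norm_embedding v x
    rw [h3, HeightOneSpectrum.adicAbv_def] at h2
    by_contra h4
    rw [not_le] at h4
    have h5 := WithZeroMulInt.toNNReal_strictMono (HeightOneSpectrum.one_lt_absNorm_nnreal v) h4
    rw [map_one] at h5
    have h6 : (1 : ℝ) < _ := NNReal.coe_lt_coe.2 h5
    exact absurd h2 (not_le.2 h6)
  obtain ⟨y, rfl⟩ := HeightOneSpectrum.mem_integers_of_valuation_le_one K x h1
  exact y.2

end Pool.Agent.Helper83.SGB
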